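import Mathlib

set_option autoImplicit false

namespace Pool.Agent.Results.MP_07f7bf_an.Euler

/-- The numerical radius `v(P)` of a map `P : X → X`. -/
noncomputable def numRadius {X : Type} [NormedAddCommGroup X] [NormedSpace ℝ X]
    (P : X → X) : ℝ :=
  sSup {r : ℝ | ∃ (x : X) (f : X →L[ℝ] ℝ), ‖x‖ = 1 ∧ ‖f‖ = 1 ∧ f x = 1 ∧ r = |f (P x)|}

/-- The supremum of `‖P x‖` over the closed unit ball. -/
noncomputable def polyNorm {X : Type} [NormedAddCommGroup X] (P : X → X) : ℝ :=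
  sSup {r : ℝ | ∃ x : X, ‖x‖ ≤ 1 ∧ r = ‖P x‖}

/-- The polynomial numerical index of order `k`. -/
noncomputable def polyIndex (X : Type) [NormedAddCommGroup X] [NormedSpace ℝ X] (k : ℕ) : ℝ :=
  sInf {r : ℝ | ∃ A : ContinuousMultilinearMap ℝ (fun _ : Fin k => X) X,
    polyNorm (fun x => A (fun _ => x)) = 1 ∧ r = numRadius (fun x => A (fun _ => x))}

/-- The numerical index. -/
noncomputable def numIndex (X : Type) [NormedAddCommGroup X] [NormedSpace ℝ X] : ℝ :=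
  sInf {r : ℝ | ∃ T : X →L[ℝ] X, ‖T‖ = 1 ∧ r = numRadius T}

/-- A nonzero finite-dimensional real Banach space with `n^(2)(X) = 0` and `n(X) > 0`. -/
def Counterexample : Prop :=
  ∃ (X : Type) (_ : NormedAddCommGroup X) (_ : NormedSpace ℝ X),
    CompleteSpace X ∧ FiniteDimensional ℝ X ∧ Nontrivial X ∧ polyIndex X 2 = 0 ∧ 0 < numIndex X

abbrev E : Type := WithLp 2 (ℝ × (ℝ × ℝ))

noncomputable def pr : E →L[ℝ] ℝ × (ℝ × ℝ) := WithLp.prodContinuousLinearEquiv 2 ℝ ℝ (ℝ × ℝ)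
noncomputable def cx : E →L[ℝ] ℝ := (ContinuousLinearMap.fst ℝ ℝ (ℝ × ℝ)).comp pr
noncomputable def cy : E →L[ℝ] ℝ :=
  (ContinuousLinearMap.fst ℝ ℝ ℝ).comp ((ContinuousLinearMap.snd ℝ ℝ (ℝ × ℝ)).comp pr)
noncomputable def cz : E →L[ℝ] ℝ :=
  (ContinuousLinearMap.snd ℝ ℝ ℝ).comp ((ContinuousLinearMap.snd ℝ ℝ (ℝ × ℝ)).comp pr)
def mk (x y z : ℝ) : E := WithLp.toLp 2 (x, (y, z))

@[simp] lemma cx_mk (x y z : ℝ) : cx (mk x y z) = x := rfl
@[simp] lemma cy_mk (x y z : ℝ) : cy (mk x y z) = y := rfl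
@[simp] lemma cz_mk (x y z : ℝ) : cz (mk x y z) = z := rfl
lemma eq_mk (v : E) : v = mk (cx v) (cy v) (cz v) := rfl
lemma mk_eq (x y z : ℝ) : mk x y z = x • mk 1 0 0 + y • mk 0 1 0 + z • mk 0 0 1 := by
  rw [eq_mk (x • mk 1 0 0 + y • mk 0 1 0 + z • mk 0 0 1)]
  simp

lemma nsq (v : E) : ‖v‖ ^ 2 = cx v ^ 2 + max (cy v ^ 2) (cz v ^ 2) := by
  rw [WithLp.prod_norm_sq_eq_of_L2]
  have h1 : ‖v.fst‖ ^ 2 = cx v ^ 2 := by
    rw [Real.norm_eq_abs, sq_abs]; rfl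
  have h2 : ‖v.snd‖ = max |cy v| |cz v| := by
    rw [Prod.norm_def]; rfl
  rw [h1, h2, ← sq_abs (cy v), ← sq_abs (cz v)]
  congr 1
  rcases le_total |cy v| |cz v| with h | h
  · rw [max_eq_right h, max_eq_right (pow_le_pow_left₀ (abs_nonneg _) h 2)]
  · rw [max_eq_left h, max_eq_left (pow_le_pow_left₀ (abs_nonneg _) h 2)]

lemma n1 (v : E) : cx v ^ 2 + cy v ^ 2 ≤ ‖v‖ ^ 2 := by rw [nsq]; gcongr; exact le_max_left _ _
lemma n2 (v : E) : cx v ^ 2 + cz v ^ 2 ≤ ‖v‖ ^ 2 := by rw [nsq]; gcongr; exact le_max_right _ _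
lemma n3 (v : E) (c : ℝ) (h1 : cx v ^ 2 + cy v ^ 2 ≤ c) (h2 : cx v ^ 2 + cz v ^ 2 ≤ c) :
    ‖v‖ ^ 2 ≤ c := by
  rw [nsq]
  rcases le_total (cy v ^ 2) (cz v ^ 2) with h | h
  · rwa [max_eq_right h]
  · rwa [max_eq_left h]

noncomputable def bil (a b : E →L[ℝ] ℝ) (e : E) :
    ContinuousMultilinearMap ℝ (fun _ : Fin 2 => E) E :=
  ((ContinuousMultilinearMap.mkPiAlgebra ℝ (Fin 2) ℝ).compContinuousLinearMap ![a, b]).smulRight e

lemma bil_apply (a b : E →L[ℝ] ℝ) (e x : E) : bil a b e (fun _ => x) = (a x * b x) • e := by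
  simp [bil]

noncomputable def A : ContinuousMultilinearMap ℝ (fun _ : Fin 2 => E) E :=
  bil cy cz (mk 1 0 0) + bil cx cz (mk 0 (-1) 0) + bil cx cy (mk 0 0 (-1))

lemma A_apply (v : E) :
    A (fun _ => v) = mk (cy v * cz v) (-(cx v * cz v)) (-(cx v * cy v)) := by
  rw [eq_mk (A (fun _ => v))]
  simp [A, bil_apply]

lemma A_le (v : E) (hv : ‖v‖ ≤ 1) : ‖A (fun _ => v)‖ ^ 2 ≤ 1 := by
  have h0 : ‖v‖ ^ 2 ≤ 1 := by nlinarith [norm_nonneg v]
  have h1 := (n1 v).trans h0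
  have h2 := (n2 v).trans h0
  rw [A_apply]
  apply n3 <;> simp only [cx_mk, cy_mk, cz_mk]
  · nlinarith [sq_nonneg (cx v), sq_nonneg (cy v), sq_nonneg (cz v),
      mul_nonneg (sq_nonneg (cz v)) (sub_nonneg.2 h1)]
  · nlinarith [sq_nonneg (cx v), sq_nonneg (cy v), sq_nonneg (cz v),
      mul_nonneg (sq_nonneg (cy v)) (sub_nonneg.2 h2)]

lemma norm_one (v : E) (h : cx v ^ 2 + max (cy v ^ 2) (cz v ^ 2) = 1) : ‖v‖ = 1 := by
  have := nsq v
  rw [h] at this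
  nlinarith [norm_nonneg v]

lemma A_norm : polyNorm (fun x : E => A (fun _ => x)) = 1 := by
  apply IsGreatest.csSup_eq
  refine ⟨⟨mk 0 1 1, (norm_one _ (by simp)).le, ?_⟩, ?_⟩
  · simp only [A_apply]
    exact (norm_one _ (by simp)).symm
  · rintro _ ⟨v, hv, rfl⟩
    have := A_le v hv
    nlinarith [norm_nonneg (A (fun _ => v))]

lemma A_zero (v : E) (f : E →L[ℝ] ℝ) (hv : ‖v‖ = 1) (hf : ‖f‖ = 1) (h : f v = 1) :
    f (A (fun _ => v)) = 0 := by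
  set c := f (A (fun _ => v)) with hc
  have h0 : ‖v‖ ^ 2 = 1 := by rw [hv]; norm_num
  have h1 := (n1 v).trans h0.le
  have h2 := (n2 v).trans h0.le
  have h3 := (n1 _).trans (A_le v hv.le)
  have h4 := (n2 _).trans (A_le v hv.le)
  have h5 : ‖v + c • A (fun _ => v)‖ ^ 2 ≤ 1 + c ^ 2 := by
    rw [A_apply] at h3 h4 ⊢
    simp only [cx_mk, cy_mk, cz_mk] at h3 h4
    apply n3 <;> simp only [map_add, map_smul, cx_mk, cy_mk, cz_mk, smul_eq_mul]
    · nlinarith [mul_nonneg (sq_nonneg c) (sub_nonneg.2 h3)]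
    · nlinarith [mul_nonneg (sq_nonneg c) (sub_nonneg.2 h4)]
  have h6 : |1 + c * c| ≤ ‖v + c • A (fun _ => v)‖ := by
    have := f.le_opNorm (v + c • A (fun _ => v))
    rwa [hf, one_mul, map_add, map_smul, h, ← hc, smul_eq_mul, Real.norm_eq_abs] at this
  have h7 : (1 + c * c) ^ 2 ≤ 1 + c ^ 2 := by
    rw [← sq_abs]
    exact (pow_le_pow_left₀ (abs_nonneg _) h6 2).trans h5
  nlinarith [sq_nonneg c, sq_nonneg (c * c)]

lemma rad_nonneg {X : Type} [NormedAddCommGroup X] [NormedSpace ℝ X] (P : X → X) :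
    0 ≤ numRadius P :=
  Real.sSup_nonneg (by rintro _ ⟨x, f, -, -, -, rfl⟩; exact abs_nonneg _)

lemma A_rad : numRadius (fun x : E => A (fun _ => x)) = 0 := by
  refine le_antisymm (Real.sSup_nonpos ?_) (rad_nonneg _)
  rintro _ ⟨x, f, hx, hf, h, rfl⟩
  simp [A_zero x f hx hf h]

lemma poly_zero : polyIndex E 2 = 0 := by
  apply IsLeast.csInf_eq
  refine ⟨⟨A, A_norm, A_rad.symm⟩, ?_⟩
  rintro _ ⟨B, -, rfl⟩
  exact rad_nonneg _

lemma le_rad (T : E →L[ℝ] E) (x : E) (f : E →L[ℝ] ℝ) (hx : ‖x‖ = 1) (hf : ∀ w, f w ^ 2 ≤ ‖w‖ ^ 2)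
    (h : f x = 1) : |f (T x)| ≤ numRadius T := by
  have hf1 : ‖f‖ = 1 := by
    apply le_antisymm
    · refine f.opNorm_le_bound zero_le_one fun w => ?_
      rw [one_mul, Real.norm_eq_abs]
      exact abs_le_of_sq_le_sq (hf w) (norm_nonneg w)
    · have := f.le_opNorm x
      rw [h, hx] at this
      simpa using this
  refine le_csSup ⟨‖T‖, ?_⟩ ⟨x, f, hx, hf1, h, rfl⟩
  rintro _ ⟨y, g, hy, hg, -, rfl⟩
  have h1 := g.le_opNorm (T y)
  have h2 := T.le_opNorm y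
  rw [hg, one_mul, Real.norm_eq_abs] at h1
  rw [hy, mul_one] at h2
  exact h1.trans h2

lemma key1 (T : E →L[ℝ] E) (a b s : ℝ) (h : a ^ 2 + b ^ 2 = 1) (hs : s ^ 2 ≤ b ^ 2) :
    |a * cx (T (mk a b s)) + b * cy (T (mk a b s))| ≤ numRadius T := by
  have := le_rad T (mk a b s) (a • cx + b • cy) (norm_one _ (by simp [hs, h]))
    (fun w => by
      have := n1 w
      simp only [add_apply, smul_apply, smul_eq_mul]
      nlinarith [sq_nonneg (a * cy w - b * cx w)])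
    (by simp only [add_apply, smul_apply, smul_eq_mul, cx_mk, cy_mk]; nlinarith)
  simpa only [add_apply, smul_apply, smul_eq_mul] using this

lemma key2 (T : E →L[ℝ] E) (a b s : ℝ) (h : a ^ 2 + b ^ 2 = 1) (hs : s ^ 2 ≤ b ^ 2) :
    |a * cx (T (mk a s b)) + b * cz (T (mk a s b))| ≤ numRadius T := by
  have := le_rad T (mk a s b) (a • cx + b • cz) (norm_one _ (by simp [hs, h]))
    (fun w => by
      have := n2 w
      simp only [add_apply, smul_apply, smul_eq_mul]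
      nlinarith [sq_nonneg (a * cz w - b * cx w)])
    (by simp only [add_apply, smul_apply, smul_eq_mul, cx_mk, cz_mk]; nlinarith)
  simpa only [add_apply, smul_apply, smul_eq_mul] using this

lemma norm_le (w : E) (c : ℝ) (h1 : |cx w| ≤ c) (h2 : |cy w| ≤ c) (h3 : |cz w| ≤ c) :
    ‖w‖ ≤ 2 * c := by
  have hc : 0 ≤ c := (abs_nonneg _).trans h1
  have g1 := sq_le_sq' (abs_le.1 h1).1 (abs_le.1 h1).2
  have g2 := sq_le_sq' (abs_le.1 h2).1 (abs_le.1 h2).2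
  have g3 := sq_le_sq' (abs_le.1 h3).1 (abs_le.1 h3).2
  have := n3 w ((2 * c) ^ 2) (by nlinarith) (by nlinarith)
  exact le_of_sq_le_sq this (by positivity)

lemma low (T : E →L[ℝ] E) : ‖T‖ ≤ 72 * numRadius T := by
  have a1 := key1 T 1 0 0 (by norm_num) (by norm_num)
  have a2 := key1 T 0 1 0 (by norm_num) (by norm_num)
  have a3 := key1 T 0 1 1 (by norm_num) (by norm_num)
  have a4 := key1 T (3 / 5) (4 / 5) 0 (by norm_num) (by norm_num)
  have a5 := key1 T (3 / 5) (4 / 5) (4 / 5) (by norm_num) (by norm_num)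
  have b2 := key2 T 0 1 0 (by norm_num) (by norm_num)
  have b3 := key2 T 0 1 1 (by norm_num) (by norm_num)
  have b4 := key2 T (3 / 5) (4 / 5) 0 (by norm_num) (by norm_num)
  have b5 := key2 T (3 / 5) (4 / 5) (4 / 5) (by norm_num) (by norm_num)
  rw [mk_eq 0 1 1] at a3 b3
  rw [mk_eq (3 / 5)] at a4 a5 b4 b5
  simp only [map_add, map_smul, smul_eq_mul] at a3 a4 a5 b3 b4 b5
  rw [abs_le] at a1 a2 a3 a4 a5 b2 b3 b4 b5
  obtain ⟨a1, a1'⟩ := a1
  obtain ⟨a2, a2'⟩ := a2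
  obtain ⟨a3, a3'⟩ := a3
  obtain ⟨a4, a4'⟩ := a4
  obtain ⟨a5, a5'⟩ := a5
  obtain ⟨b2, b2'⟩ := b2
  obtain ⟨b3, b3'⟩ := b3
  obtain ⟨b4, b4'⟩ := b4
  obtain ⟨b5, b5'⟩ := b5
  have hr := rad_nonneg T
  have e1 : ‖T (mk 1 0 0)‖ ≤ 2 * (12 * numRadius T) := by
    apply norm_le <;> rw [abs_le] <;> constructor <;> linarith
  have e2 : ‖T (mk 0 1 0)‖ ≤ 2 * (12 * numRadius T) := by
    apply norm_le <;> rw [abs_le] <;> constructor <;> linarith
  have e3 : ‖T (mk 0 0 1)‖ ≤ 2 * (12 * numRadius T) := by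
    apply norm_le <;> rw [abs_le] <;> constructor <;> linarith
  refine T.opNorm_le_bound (by positivity) fun w => ?_
  have hx : |cx w| ≤ ‖w‖ :=
    abs_le_of_sq_le_sq (by nlinarith [n1 w, sq_nonneg (cy w)]) (norm_nonneg w)
  have hy : |cy w| ≤ ‖w‖ :=
    abs_le_of_sq_le_sq (by nlinarith [n1 w, sq_nonneg (cx w)]) (norm_nonneg w)
  have hz : |cz w| ≤ ‖w‖ :=
    abs_le_of_sq_le_sq (by nlinarith [n2 w, sq_nonneg (cx w)]) (norm_nonneg w)
  have hw : T w = cx w • T (mk 1 0 0) + cy w • T (mk 0 1 0) + cz w • T (mk 0 0 1) := by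
    conv_lhs => rw [eq_mk w, mk_eq]
    simp only [map_add, map_smul]
  rw [hw]
  refine (norm_add₃_le).trans ?_
  simp only [norm_smul, Real.norm_eq_abs]
  have k1 := mul_le_mul hx e1 (norm_nonneg _) (norm_nonneg _)
  have k2 := mul_le_mul hy e2 (norm_nonneg _) (norm_nonneg _)
  have k3 := mul_le_mul hz e3 (norm_nonneg _) (norm_nonneg _)
  nlinarith

theorem result : Counterexample := by
  refine ⟨E, inferInstance, inferInstance, inferInstance, inferInstance, inferInstance,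
    poly_zero, lt_of_lt_of_le (show (0 : ℝ) < 1 / 72 by norm_num) ?_⟩
  refine le_csInf ⟨_, ContinuousLinearMap.id ℝ E, ContinuousLinearMap.norm_id, rfl⟩ ?_
  rintro _ ⟨T, hT, rfl⟩
  have := low T
  rw [hT] at this
  linarith

end Pool.Agent.Results.MP_07f7bf_an.Euler
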